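import Mathlib

set_option autoImplicit false

namespace Pool.Agent.H104R3

/-- The integer Heisenberg group, with explicit coordinates. -/
@[ext] structure Heis where
  a : ℤ
  b : ℤ
  c : ℤ

namespace Heis

instance : One Heis := ⟨⟨0, 0, 0⟩⟩
instance : Mul Heis := ⟨fun g h => ⟨g.a + h.a, g.b + h.b, g.c + h.c + g.a * h.b⟩⟩
instance : Inv Heis := ⟨fun g => ⟨-g.a, -g.b, -g.c + g.a * g.b⟩⟩

@[simp] theorem one_a : (1 : Heis).a = 0 := rfl
@[simp] theorem one_b : (1 : Heis).b = 0 := rfl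
@[simp] theorem one_c : (1 : Heis).c = 0 := rfl
@[simp] theorem mul_a (g h : Heis) : (g * h).a = g.a + h.a := rfl
@[simp] theorem mul_b (g h : Heis) : (g * h).b = g.b + h.b := rfl
@[simp] theorem mul_c (g h : Heis) : (g * h).c = g.c + h.c + g.a * h.b := rfl
@[simp] theorem inv_a (g : Heis) : (g⁻¹).a = -g.a := rfl
@[simp] theorem inv_b (g : Heis) : (g⁻¹).b = -g.b := rfl
@[simp] theorem inv_c (g : Heis) : (g⁻¹).c = -g.c + g.a * g.b := rfl

instance : Group Heis := Group.ofLeftAxioms
  (by intro x y z; ext <;> simp <;> ring)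
  (by intro x; ext <;> simp)
  (by intro x; ext <;> simp)

instance : DecidableEq Heis := fun g h =>
  decidable_of_iff (g.a = h.a ∧ g.b = h.b ∧ g.c = h.c) (by rw [Heis.ext_iff])

/-- The first generator. -/
def X : Heis := ⟨1, 0, 0⟩
/-- The second generator. -/
def Y : Heis := ⟨0, 1, 0⟩

@[simp] theorem X_a : X.a = 1 := rfl
@[simp] theorem X_b : X.b = 0 := rfl
@[simp] theorem X_c : X.c = 0 := rfl
@[simp] theorem Y_a : Y.a = 0 := rfl
@[simp] theorem Y_b : Y.b = 1 := rfl
@[simp] theorem Y_c : Y.c = 0 := rfl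

theorem X_pow (n : ℕ) : X ^ n = ⟨n, 0, 0⟩ := by
  induction n with
  | zero => rfl
  | succ n ih => rw [pow_succ, ih]; ext <;> simp

theorem Y_pow (n : ℕ) : Y ^ n = ⟨0, n, 0⟩ := by
  induction n with
  | zero => rfl
  | succ n ih => rw [pow_succ, ih]; ext <;> simp

theorem Xinv_pow (n : ℕ) : X⁻¹ ^ n = ⟨-n, 0, 0⟩ := by
  rw [inv_pow, X_pow]; ext <;> simp

theorem Yinv_pow (n : ℕ) : Y⁻¹ ^ n = ⟨0, -n, 0⟩ := by
  rw [inv_pow, Y_pow]; ext <;> simp

/-- The generating set. -/
def S : Finset Heis := {X, Y}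

theorem closure_S : Subgroup.closure (S : Set Heis) = ⊤ := by
  rw [eq_top_iff]
  intro g _
  have hX : X ∈ Subgroup.closure (S : Set Heis) := Subgroup.subset_closure (by simp [S])
  have hY : Y ∈ Subgroup.closure (S : Set Heis) := Subgroup.subset_closure (by simp [S])
  -- maps from the integers
  let fx : Multiplicative ℤ →* Heis :=
    { toFun := fun t => ⟨t.toAdd, 0, 0⟩
      map_one' := rfl
      map_mul' := by intro s t; ext <;> simp }
  let fy : Multiplicative ℤ →* Heis :=
    { toFun := fun t => ⟨0, t.toAdd, 0⟩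
      map_one' := rfl
      map_mul' := by intro s t; ext <;> simp }
  let fz : Multiplicative ℤ →* Heis :=
    { toFun := fun t => ⟨0, 0, t.toAdd⟩
      map_one' := rfl
      map_mul' := by intro s t; ext <;> simp }
  have key : ∀ (f : Multiplicative ℤ →* Heis) (t : ℤ),
      f (Multiplicative.ofAdd 1) ∈ Subgroup.closure (S : Set Heis) →
      f (Multiplicative.ofAdd t) ∈ Subgroup.closure (S : Set Heis) := by
    intro f t h
    have : Multiplicative.ofAdd t = (Multiplicative.ofAdd (1:ℤ)) ^ t := by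
      rw [← ofAdd_zsmul]; simp
    rw [this, map_zpow]
    exact Subgroup.zpow_mem _ h t
  have h1 : fx (Multiplicative.ofAdd g.a) ∈ Subgroup.closure (S : Set Heis) := by
    apply key
    exact hX
  have h2 : fy (Multiplicative.ofAdd g.b) ∈ Subgroup.closure (S : Set Heis) := by
    apply key
    exact hY
  have h3 : fz (Multiplicative.ofAdd g.c) ∈ Subgroup.closure (S : Set Heis) := by
    apply key
    have : fz (Multiplicative.ofAdd 1) = X * Y * X⁻¹ * Y⁻¹ := by
      ext <;> simp [fz]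
    rw [this]
    exact mul_mem (mul_mem (mul_mem hX hY) (inv_mem hX)) (inv_mem hY)
  have : g = fy (Multiplicative.ofAdd g.b) * fx (Multiplicative.ofAdd g.a)
      * fz (Multiplicative.ofAdd g.c) := by
    ext <;> simp [fx, fy, fz]
  rw [this]
  exact mul_mem (mul_mem h2 h1) h3

/-- Words stay in a box. -/
theorem box (l : List Heis) (hl : ∀ x ∈ l, x ∈ S ∨ x⁻¹ ∈ S) :
    |l.prod.a| ≤ l.length ∧ |l.prod.b| ≤ l.length ∧ |l.prod.c| ≤ (l.length : ℤ) ^ 2 := by
  induction l with
  | nil => simp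
  | cons s t ih =>
    obtain ⟨h1, h2, h3⟩ := ih (fun x hx => hl x (List.mem_cons_of_mem _ hx))
    have hs := hl s (List.mem_cons_self)
    have hs' : (|s.a| ≤ 1 ∧ |s.b| ≤ 1 ∧ s.c = 0) := by
      rcases hs with h | h
      · simp only [S, Finset.mem_insert, Finset.mem_singleton] at h
        rcases h with h | h <;> subst h <;> simp
      · simp only [S, Finset.mem_insert, Finset.mem_singleton] at h
        rcases h with h | h
        · have : s = X⁻¹ := by rw [← h, inv_inv]
          subst this; simp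
        · have : s = Y⁻¹ := by rw [← h, inv_inv]
          subst this; simp
    obtain ⟨ha, hb, hc⟩ := hs'
    rw [List.prod_cons, List.length_cons]
    push_cast
    refine ⟨?_, ?_, ?_⟩
    · rw [mul_a]
      calc |s.a + t.prod.a| ≤ |s.a| + |t.prod.a| := abs_add_le _ _
        _ ≤ _ := by linarith
    · rw [mul_b]
      calc |s.b + t.prod.b| ≤ |s.b| + |t.prod.b| := abs_add_le _ _
        _ ≤ _ := by linarith
    · rw [mul_c, hc, zero_add]
      calc |t.prod.c + s.a * t.prod.b| ≤ |t.prod.c| + |s.a * t.prod.b| := abs_add_le _ _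
        _ = |t.prod.c| + |s.a| * |t.prod.b| := by rw [abs_mul]
        _ ≤ (t.length : ℤ) ^ 2 + 1 * (t.length : ℤ) := by
            have h0 : (0:ℤ) ≤ |t.prod.b| := abs_nonneg _
            have := mul_le_mul ha h2 h0 (by norm_num : (0:ℤ) ≤ 1)
            linarith
        _ ≤ ((t.length : ℤ) + 1) ^ 2 := by
            have : (0:ℤ) ≤ (t.length : ℤ) := by positivity
            nlinarith

/-- The ball of radius n. -/
def Ball (n : ℕ) (g : Heis) : Prop :=
  ∃ l : List Heis, l.length ≤ n ∧ (∀ x ∈ l, x ∈ S ∨ x⁻¹ ∈ S) ∧ l.prod = g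

theorem Ball.box {n : ℕ} {g : Heis} (h : Ball n g) :
    |g.a| ≤ n ∧ |g.b| ≤ n ∧ |g.c| ≤ (n : ℤ) ^ 2 := by
  obtain ⟨l, h1, h2, h3⟩ := h
  obtain ⟨ha, hb, hc⟩ := Heis.box l h2
  rw [h3] at ha hb hc
  have h1' : (l.length : ℤ) ≤ n := by exact_mod_cast h1
  have h0 : (0:ℤ) ≤ (l.length : ℤ) := by positivity
  refine ⟨by linarith, by linarith, by nlinarith⟩

instance finite_ball (n : ℕ) : Finite {g : Heis // Ball n g} := by
  let f : {g : Heis // Ball n g} → (Set.Icc (-(n:ℤ)) n) × (Set.Icc (-(n:ℤ)) n)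
      × (Set.Icc (-((n:ℤ)^2)) ((n:ℤ)^2)) := fun g =>
    ⟨⟨g.1.a, abs_le.mp g.2.box.1⟩, ⟨g.1.b, abs_le.mp g.2.box.2.1⟩,
      ⟨g.1.c, abs_le.mp g.2.box.2.2⟩⟩
  apply Finite.of_injective f
  intro g h hgh
  simp only [f, Prod.mk.injEq] at hgh
  apply Subtype.ext
  exact Heis.ext (congrArg Subtype.val hgh.1) (congrArg Subtype.val hgh.2.1)
    (congrArg Subtype.val hgh.2.2)

/-- Elements of short length. -/
theorem ball_elem (m : ℕ) (a b q r : Fin m) :
    Ball (8 * m) ⟨a, b, ((m * q + r : ℕ) : ℤ)⟩ := by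
  refine ⟨List.replicate b Y ++ List.replicate a X ++ List.replicate q X
    ++ List.replicate m Y ++ List.replicate q X⁻¹ ++ List.replicate m Y⁻¹
    ++ List.replicate r X ++ [Y] ++ List.replicate r X⁻¹ ++ [Y⁻¹], ?_, ?_, ?_⟩
  · simp only [List.length_append, List.length_replicate, List.length_singleton]
    have := a.2; have := b.2; have := q.2; have := r.2
    omega
  · intro x hx
    simp only [List.mem_append, List.mem_replicate, List.mem_singleton] at hx
    have hX : X ∈ S := by simp [S]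
    have hY : Y ∈ S := by simp [S]
    rcases hx with ((((((((h | h) | h) | h) | h) | h) | h) | h) | h) | h
    · rw [h.2]; exact Or.inl hY
    · rw [h.2]; exact Or.inl hX
    · rw [h.2]; exact Or.inl hX
    · rw [h.2]; exact Or.inl hY
    · rw [h.2]; right; rw [inv_inv]; exact hX
    · rw [h.2]; right; rw [inv_inv]; exact hY
    · rw [h.2]; exact Or.inl hX
    · rw [h]; exact Or.inl hY
    · rw [h.2]; right; rw [inv_inv]; exact hX
    · rw [h]; right; rw [inv_inv]; exact hY
  · simp only [List.prod_append, List.prod_replicate, List.prod_singleton, X_pow, Y_pow,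
      Xinv_pow, Yinv_pow]
    ext <;> simp <;> ring

theorem card_ball_ge (m : ℕ) : m ^ 4 ≤ Nat.card {g : Heis // Ball (8 * m) g} := by
  let f : (Fin m × Fin m) × (Fin m × Fin m) → {g : Heis // Ball (8 * m) g} := fun t =>
    ⟨⟨t.1.1, t.1.2, ((m * t.2.1 + t.2.2 : ℕ) : ℤ)⟩, ball_elem m t.1.1 t.1.2 t.2.1 t.2.2⟩
  have hf : Function.Injective f := by
    rintro ⟨⟨a, b⟩, ⟨q, r⟩⟩ ⟨⟨a', b'⟩, ⟨q', r'⟩⟩ h
    simp only [f, Subtype.mk.injEq, Heis.mk.injEq, Nat.cast_inj] at h
    obtain ⟨h1, h2, h3⟩ := h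
    have h1' : a = a' := Fin.ext h1
    have h2' : b = b' := Fin.ext h2
    have hm : 0 < m := lt_of_le_of_lt (Nat.zero_le _) a.2
    have h4 : (q : ℕ) = q' := by
      have e1 : (m * q + r) / m = q := by
        rw [Nat.mul_add_div hm, Nat.div_eq_of_lt r.2, add_zero]
      have e2 : (m * q' + r') / m = q' := by
        rw [Nat.mul_add_div hm, Nat.div_eq_of_lt r'.2, add_zero]
      rw [← e1, ← e2, h3]
    have h5 : (r : ℕ) = r' := by
      rw [h4] at h3; omega
    rw [h1', h2', Fin.ext h4, Fin.ext h5]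
  have := Nat.card_le_card_of_injective f hf
  have h2 : Nat.card ((Fin m × Fin m) × (Fin m × Fin m)) = m ^ 4 := by
    simp only [Nat.card_eq_fintype_card, Fintype.card_prod, Fintype.card_fin]
    ring
  rw [h2] at this
  exact this

end Heis

end Pool.Agent.H104R3
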