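import Pool.Agent.H104R3.Heis

set_option autoImplicit false

namespace Pool.Agent.H104R3

namespace Heis

/-- The action on pairs modulo p. -/
def act (p : ℕ) (g : Heis) : Equiv.Perm (ZMod p × ZMod p) where
  toFun v := (v.1 + g.b, v.2 + g.c + g.a * v.1)
  invFun v := (v.1 - g.b, v.2 - g.c - g.a * (v.1 - g.b))
  left_inv v := by
    ext
    · simp
    · simp only [add_sub_cancel_right]
      ring
  right_inv v := by
    ext
    · simp
    · simp only
      ring

theorem act_mul (p : ℕ) (g h : Heis) : act p (g * h) = act p g * act p h := by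
  ext v
  · simp only [act, Equiv.coe_fn_mk, Equiv.Perm.coe_mul, Function.comp, mul_b, Int.cast_add]
    ring
  · simp only [act, Equiv.coe_fn_mk, Equiv.Perm.coe_mul, Function.comp, mul_a, mul_c,
      Int.cast_add, Int.cast_mul]
    ring

theorem act_one (p : ℕ) : act p 1 = 1 := by
  ext v <;> simp [act]

/-- Number of fixed points. -/
theorem act_fixed_le (p : ℕ) (hp : p.Prime) [NeZero p] (L : ℕ) (hL : L < p) (g : Heis)
    (ha : |g.a| ≤ L) (hb : |g.b| ≤ L)
    (hbad : ¬ (g.a = 0 ∧ g.b = 0 ∧ (p : ℤ) ∣ g.c)) :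
    Fintype.card {v : ZMod p × ZMod p // act p g v = v} ≤ p := by
  have : Fact p.Prime := ⟨hp⟩
  have hsmall : ∀ t : ℤ, |t| ≤ L → ((t : ZMod p) = 0 ↔ t = 0) := by
    intro t ht
    constructor
    · intro h
      rw [ZMod.intCast_zmod_eq_zero_iff_dvd] at h
      apply Int.eq_zero_of_abs_lt_dvd h
      have : (L : ℤ) < p := by exact_mod_cast hL
      linarith
    · rintro rfl; simp
  -- the second coordinate determines a fixed point
  by_cases hb0 : g.b = 0
  · by_cases ha0 : g.a = 0
    · have hc : ¬ (p : ℤ) ∣ g.c := fun h => hbad ⟨ha0, hb0, h⟩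
      have : IsEmpty {v : ZMod p × ZMod p // act p g v = v} := by
        constructor
        rintro ⟨v, hv⟩
        have h2 := congrArg Prod.snd hv
        simp only [act, Equiv.coe_fn_mk, ha0, Int.cast_zero, zero_mul, add_zero] at h2
        have h3 : (g.c : ZMod p) = 0 := by
          have := add_eq_left.mp h2
          exact this
        rw [ZMod.intCast_zmod_eq_zero_iff_dvd] at h3
        exact hc h3
      rw [Fintype.card_eq_zero]
      exact Nat.zero_le _
    · have hane : (g.a : ZMod p) ≠ 0 := fun h => ha0 ((hsmall _ ha).mp h)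
      have hinj : Function.Injective
          (fun v : {v : ZMod p × ZMod p // act p g v = v} => v.1.2) := by
        rintro ⟨v, hv⟩ ⟨w, hw⟩ h
        simp only at h
        have h2 := congrArg Prod.snd hv
        have h3 := congrArg Prod.snd hw
        simp only [act, Equiv.coe_fn_mk] at h2 h3
        have h4 : (g.c : ZMod p) + g.a * v.1 = 0 := by
          rw [add_assoc] at h2
          exact add_eq_left.mp h2
        have h5 : (g.c : ZMod p) + g.a * w.1 = 0 := by
          rw [add_assoc] at h3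
          exact add_eq_left.mp h3
        have h6 : (g.a : ZMod p) * v.1 = g.a * w.1 := by
          have := h4.trans h5.symm
          exact add_left_cancel this
        have h7 := mul_left_cancel₀ hane h6
        exact Subtype.ext (Prod.ext h7 h)
      have := Fintype.card_le_of_injective _ hinj
      rwa [ZMod.card] at this
  · have : IsEmpty {v : ZMod p × ZMod p // act p g v = v} := by
      constructor
      rintro ⟨v, hv⟩
      have h2 := congrArg Prod.fst hv
      simp only [act, Equiv.coe_fn_mk] at h2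
      have h3 : (g.b : ZMod p) = 0 := add_eq_left.mp h2
      exact hb0 ((hsmall _ hb).mp h3)
    rw [Fintype.card_eq_zero]
    exact Nat.zero_le _

/-- The general approximation lemma. -/
theorem approx (L : ℕ) (P : Finset ℕ) (hP : ∀ p ∈ P, p.Prime ∧ L < p) (w : ℕ → ℕ)
    (hbad : ∀ t : ℤ, t ≠ 0 → |t| ≤ (L : ℤ) ^ 2 →
      L * ∑ p ∈ P.filter (fun p : ℕ => ((p : ℤ) ∣ t)), w p * p ^ 2 ≤ ∑ p ∈ P, w p * p ^ 2) :
    ∃ φ : Heis →* Equiv.Perm (Fin (∑ p ∈ P, w p * p ^ 2)),
      ∀ g : Heis, |g.a| ≤ L → |g.b| ≤ L → |g.c| ≤ (L : ℤ) ^ 2 → g ≠ 1 →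
        L * (Finset.univ.filter (fun i => φ g i = i)).card ≤ ∑ p ∈ P, w p * p ^ 2 := by
  classical
  have hne : ∀ p : P, NeZero (p : ℕ) := fun p => ⟨(hP p p.2).1.ne_zero⟩
  let Z : Type := Σ p : P, (Fin (w p) × (ZMod (p : ℕ) × ZMod (p : ℕ)))
  have hcard : Fintype.card Z = ∑ p ∈ P, w p * p ^ 2 := by
    simp only [Z, Fintype.card_sigma, Fintype.card_prod, Fintype.card_fin, ZMod.card]
    rw [← Finset.sum_coe_sort P (fun p => w p * p ^ 2)]
    apply Finset.sum_congr rfl
    intro p _
    ring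
  let e : Z ≃ Fin (∑ p ∈ P, w p * p ^ 2) := Fintype.equivFinOfCardEq hcard
  let ψ : Heis → Equiv.Perm Z := fun g =>
    Equiv.sigmaCongrRight (fun p : P => Equiv.prodCongr (Equiv.refl (Fin (w p))) (act (p : ℕ) g))
  have ψapp : ∀ g (p : P) (u : Fin (w p)) (v : ZMod (p : ℕ) × ZMod (p : ℕ)),
      ψ g ⟨p, u, v⟩ = ⟨p, u, act (p : ℕ) g v⟩ := fun _ _ _ _ => rfl
  have ψmul : ∀ g h, ψ (g * h) = ψ g * ψ h := by
    intro g h
    apply Equiv.ext
    rintro ⟨p, u, v⟩
    rw [ψapp, act_mul]
    rfl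
  have ψone : ψ 1 = 1 := by
    apply Equiv.ext
    rintro ⟨p, u, v⟩
    rw [ψapp, act_one]
    rfl
  let φ : Heis →* Equiv.Perm (Fin (∑ p ∈ P, w p * p ^ 2)) :=
    { toFun := fun g => e.permCongr (ψ g)
      map_one' := by
        rw [ψone]; ext i; simp [Equiv.permCongr_apply]
      map_mul' := by
        intro g h
        rw [ψmul]; ext i; simp [Equiv.permCongr_apply] }
  refine ⟨φ, ?_⟩
  intro g ha hb hc hg
  have h1 : (Finset.univ.filter (fun i => φ g i = i)).card
      = Fintype.card {z : Z // ψ g z = z} := by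
    rw [← Fintype.card_subtype]
    apply Fintype.card_congr
    refine (Equiv.subtypeEquiv e ?_).symm
    intro z
    show ψ g z = z ↔ e (ψ g (e.symm (e z))) = e z
    rw [Equiv.symm_apply_apply]
    exact e.injective.eq_iff.symm
  have h2 : Fintype.card {z : Z // ψ g z = z}
      = ∑ p : P, w p * Fintype.card {v : ZMod (p : ℕ) × ZMod (p : ℕ) // act (p : ℕ) g v = v} := by
    have : ∀ p : P, w p * Fintype.card {v : ZMod (p : ℕ) × ZMod (p : ℕ) // act (p : ℕ) g v = v}
        = Fintype.card (Fin (w p) × {v : ZMod (p : ℕ) × ZMod (p : ℕ) // act (p : ℕ) g v = v}) := by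
      intro p; rw [Fintype.card_prod, Fintype.card_fin]
    rw [Finset.sum_congr rfl (fun p _ => this p), ← Fintype.card_sigma]
    apply Fintype.card_congr
    refine ⟨fun z => ⟨z.1.1, z.1.2.1, ⟨z.1.2.2, ?_⟩⟩, fun z => ⟨⟨z.1, z.2.1, z.2.2.1⟩, ?_⟩,
      ?_, ?_⟩
    · obtain ⟨⟨p, u, v⟩, hz⟩ := z
      rw [ψapp] at hz
      have := eq_of_heq (Sigma.mk.inj hz).2
      exact congrArg Prod.snd this
    · obtain ⟨p, u, v, hv⟩ := z
      rw [ψapp]
      rw [hv]
    · rintro ⟨⟨p, u, v⟩, hz⟩; rfl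
    · rintro ⟨p, u, v, hv⟩; rfl
  rw [h1, h2]
  by_cases hz : g.a = 0 ∧ g.b = 0
  · have hc0 : g.c ≠ 0 := by
      intro h
      exact hg (Heis.ext hz.1 hz.2 h)
    refine le_trans ?_ (hbad g.c hc0 hc)
    apply Nat.mul_le_mul_left
    rw [Finset.sum_filter, ← Finset.sum_coe_sort P]
    apply Finset.sum_le_sum
    intro p _
    split_ifs with hd
    · apply Nat.mul_le_mul_left
      refine le_trans (Fintype.card_subtype_le _) ?_
      rw [Fintype.card_prod, ZMod.card, sq]
    · have : IsEmpty {v : ZMod (p : ℕ) × ZMod (p : ℕ) // act (p : ℕ) g v = v} := by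
        constructor
        rintro ⟨v, hv⟩
        have h2 := congrArg Prod.snd hv
        simp only [act, Equiv.coe_fn_mk, hz.1, Int.cast_zero, zero_mul, add_zero] at h2
        have h3 : (g.c : ZMod (p : ℕ)) = 0 := add_eq_left.mp h2
        rw [ZMod.intCast_zmod_eq_zero_iff_dvd] at h3
        exact hd h3
      rw [Fintype.card_eq_zero, mul_zero]
  · rw [Finset.mul_sum, ← Finset.sum_coe_sort P (fun p => w p * p ^ 2)]
    apply Finset.sum_le_sum
    intro p _
    have h3 := act_fixed_le (p : ℕ) (hP p p.2).1 L (hP p p.2).2 g ha hb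
      (fun h => hz ⟨h.1, h.2.1⟩)
    calc L * (w p * Fintype.card {v : ZMod (p : ℕ) × ZMod (p : ℕ) // act (p : ℕ) g v = v})
        ≤ p * (w p * p) := by
          apply Nat.mul_le_mul (hP p p.2).2.le
          exact Nat.mul_le_mul_left _ h3
      _ = w p * p ^ 2 := by ring

end Heis

end Pool.Agent.H104R3
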