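import Pool.Agent.H104R3.HeisAct
import Mathlib.NumberTheory.Chebyshev

set_option autoImplicit false

namespace Pool.Agent.H104R3

namespace Heis

theorem real_approx (L D : ℕ) (hD : 0 < D) (φ : Heis →* Equiv.Perm (Fin D))
    (hφ : ∀ g : Heis, |g.a| ≤ L → |g.b| ≤ L → |g.c| ≤ (L : ℤ) ^ 2 → g ≠ 1 →
      L * (Finset.univ.filter (fun i => φ g i = i)).card ≤ D) :
    φ 1 = 1 ∧
    (∀ g h : Heis,
      (∃ l : List Heis, l.length ≤ L ∧ (∀ x ∈ l, x ∈ S ∨ x⁻¹ ∈ S) ∧ l.prod = g) →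
      (∃ l : List Heis, l.length ≤ L ∧ (∀ x ∈ l, x ∈ S ∨ x⁻¹ ∈ S) ∧ l.prod = h) →
      ((Finset.univ.filter (fun i : Fin D => φ (g * h) i ≠ (φ g * φ h) i)).card : ℝ)
          / (D : ℝ) ≤ 1 / (L : ℝ)) ∧
    (∀ g : Heis,
      (∃ l : List Heis, l.length ≤ L ∧ (∀ x ∈ l, x ∈ S ∨ x⁻¹ ∈ S) ∧ l.prod = g) →
      g ≠ 1 →
      1 - 1 / (L : ℝ) ≤
        ((Finset.univ.filter (fun i : Fin D => φ g i ≠ i)).card : ℝ) / (D : ℝ)) := by
  refine ⟨map_one φ, ?_, ?_⟩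
  · intro g h _ _
    have : (Finset.univ.filter (fun i : Fin D => φ (g * h) i ≠ (φ g * φ h) i)) = ∅ := by
      rw [Finset.filter_eq_empty_iff]
      intro i _
      rw [map_mul]
      simp
    rw [this]
    simp
  · intro g hg hg1
    have hb : Ball L g := hg
    obtain ⟨ha, hb, hc⟩ := hb.box
    have hL : L ≠ 0 := by
      rintro rfl
      apply hg1
      simp only [Nat.cast_zero, abs_nonpos_iff, ne_eq, OfNat.ofNat_ne_zero, not_false_eq_true,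
        zero_pow] at ha hb hc
      exact Heis.ext ha hb hc
    have h1 := hφ g ha hb hc hg1
    have h2 := Finset.card_filter_add_card_filter_not (s := (Finset.univ : Finset (Fin D)))
      (fun i => φ g i = i)
    rw [Finset.card_univ, Fintype.card_fin] at h2
    have h2' : ((Finset.univ.filter (fun i : Fin D => φ g i = i)).card : ℝ)
        + ((Finset.univ.filter (fun i : Fin D => φ g i ≠ i)).card : ℝ) = D := by
      exact_mod_cast h2
    have h1' : (L : ℝ) * ((Finset.univ.filter (fun i : Fin D => φ g i = i)).card : ℝ) ≤ D := by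
      exact_mod_cast h1
    have hD' : (0 : ℝ) < D := by exact_mod_cast hD
    have hL' : (0 : ℝ) < L := by exact_mod_cast Nat.pos_of_ne_zero hL
    rw [le_div_iff₀ hD']
    have h3 : (1 - 1 / (L : ℝ)) * D = D - D / L := by ring
    rw [h3]
    have h4 : ((Finset.univ.filter (fun i : Fin D => φ g i = i)).card : ℝ) ≤ D / L := by
      rw [le_div_iff₀ hL']; linarith
    linarith

theorem sofic (n : ℕ) : ∃ d : ℕ, 0 < d ∧ ∃ φ : Heis → Equiv.Perm (Fin d),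
    φ 1 = 1 ∧
    (∀ g h : Heis,
      (∃ l : List Heis, l.length ≤ n ∧ (∀ x ∈ l, x ∈ S ∨ x⁻¹ ∈ S) ∧ l.prod = g) →
      (∃ l : List Heis, l.length ≤ n ∧ (∀ x ∈ l, x ∈ S ∨ x⁻¹ ∈ S) ∧ l.prod = h) →
      ((Finset.univ.filter (fun i : Fin d => φ (g * h) i ≠ (φ g * φ h) i)).card : ℝ)
          / (d : ℝ) ≤ 1 / (n : ℝ)) ∧
    (∀ g : Heis,
      (∃ l : List Heis, l.length ≤ n ∧ (∀ x ∈ l, x ∈ S ∨ x⁻¹ ∈ S) ∧ l.prod = g) →
      g ≠ 1 →
      1 - 1 / (n : ℝ) ≤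
        ((Finset.univ.filter (fun i : Fin d => φ g i ≠ i)).card : ℝ) / (d : ℝ)) := by
  obtain ⟨p, hp1, hp2⟩ := Nat.exists_infinite_primes (n ^ 2 + n + 1)
  have hbad : ∀ t : ℤ, t ≠ 0 → |t| ≤ (n : ℤ) ^ 2 →
      n * ∑ p ∈ ({p} : Finset ℕ).filter (fun p : ℕ => ((p : ℤ) ∣ t)), (fun _ => 1) p * p ^ 2
        ≤ ∑ p ∈ ({p} : Finset ℕ), (fun _ => 1) p * p ^ 2 := by
    intro t ht ht2
    have hnd : ¬ ((p : ℤ) ∣ t) := by
      intro h
      apply ht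
      apply Int.eq_zero_of_abs_lt_dvd h
      have : ((n : ℤ) ^ 2 + n + 1) ≤ p := by exact_mod_cast hp1
      have h0 : (0 : ℤ) ≤ n := by positivity
      linarith
    have : ({p} : Finset ℕ).filter (fun p : ℕ => ((p : ℤ) ∣ t)) = ∅ := by
      rw [Finset.filter_eq_empty_iff]
      intro q hq
      rw [Finset.mem_singleton] at hq
      rw [hq]; exact hnd
    rw [this, Finset.sum_empty, mul_zero]
    exact Nat.zero_le _
  obtain ⟨φ, hφ⟩ := approx n {p} (by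
    intro q hq
    rw [Finset.mem_singleton] at hq
    rw [hq]
    exact ⟨hp2, by nlinarith⟩) (fun _ => 1) hbad
  have hpos : 0 < ∑ p ∈ ({p} : Finset ℕ), (fun _ => 1) p * p ^ 2 := by
    rw [Finset.sum_singleton]
    have := hp2.pos
    positivity
  exact ⟨_, hpos, φ, real_approx n _ hpos φ hφ⟩

/-- There are enough primes. -/
theorem prime_sel (C : ℕ) (hC : 0 < C) : ∃ s : ℕ, 0 < s ∧
    3 * (392 * C ^ 3 * s ^ 2) ≤ Nat.primeCounting (49 * C ^ 2 * s ^ 3) := by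
  refine ⟨(2000 * C ^ 2) ^ 2, by positivity, ?_⟩
  have hc : (1 : ℝ) ≤ C := by exact_mod_cast hC
  set t : ℝ := 2000 * (C : ℝ) ^ 2 with ht
  set K : ℕ := 49 * C ^ 2 * ((2000 * C ^ 2) ^ 2) ^ 3 with hK
  have hKr : (K : ℝ) = 49 * (C : ℝ) ^ 2 * t ^ 6 := by
    rw [hK, ht]; push_cast; ring
  have ht1 : 2000 ≤ t := by rw [ht]; nlinarith
  have hK49 : (49 : ℝ) ≤ K := by
    rw [hKr]
    have h1 : (1:ℝ) ≤ (C:ℝ)^2 := one_le_pow₀ hc
    have h2 : (1:ℝ) ≤ t^6 := one_le_pow₀ (by linarith)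
    nlinarith
  have hlogK : Real.log K ≤ 49 * (C : ℝ) ^ 2 + 6 * t := by
    rw [hKr, Real.log_mul (by positivity) (by positivity), Real.log_pow]
    have h1 : Real.log (49 * (C : ℝ) ^ 2) ≤ 49 * (C : ℝ) ^ 2 - 1 :=
      Real.log_le_sub_one_of_pos (by positivity)
    have h2 : Real.log t ≤ t - 1 := Real.log_le_sub_one_of_pos (by linarith)
    push_cast
    linarith
  have hlogK1 : Real.log ((K : ℝ) + 1) ≤ 0.3 * K := by
    have h1 : Real.log ((K : ℝ) + 1) = 2 * Real.log (Real.sqrt ((K : ℝ) + 1)) := by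
      rw [Real.log_sqrt (by positivity)]; ring
    have h2 : Real.log (Real.sqrt ((K : ℝ) + 1)) ≤ Real.sqrt ((K : ℝ) + 1) - 1 :=
      Real.log_le_sub_one_of_pos (by positivity)
    have h3 : Real.sqrt ((K : ℝ) + 1) ≤ 0.15 * K + 1 := by
      rw [Real.sqrt_le_left (by positivity)]
      nlinarith
    linarith
  have hlogpos : 0 < Real.log K := Real.log_pos (by linarith)
  have hmain : 3 * (392 * (C : ℝ) ^ 3 * t ^ 4) * Real.log K ≤
      K * Real.log 2 - Real.log (K + 1) := by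
    have h2 : (0.6931471803 : ℝ) < Real.log 2 := Real.log_two_gt_d9
    have h3 : 3 * (392 * (C : ℝ) ^ 3 * t ^ 4) * Real.log K ≤
        3 * (392 * (C : ℝ) ^ 3 * t ^ 4) * (49 * (C : ℝ) ^ 2 + 6 * t) :=
      mul_le_mul_of_nonneg_left hlogK (by positivity)
    have h4 : 3 * (392 * (C : ℝ) ^ 3 * t ^ 4) * (49 * (C : ℝ) ^ 2 + 6 * t) ≤ 0.1 * K := by
      rw [hKr]
      have h5 : 1176 * (C : ℝ) * (49 * (C : ℝ) ^ 2 + 6 * t) ≤ 4.9 * t ^ 2 := by
        rw [ht]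
        have : (C : ℝ) ^ 3 ≤ (C : ℝ) ^ 4 := pow_le_pow_right₀ hc (by norm_num)
        nlinarith [pow_nonneg (by linarith : (0:ℝ) ≤ C) 3]
      have h6 : 0 ≤ (C : ℝ) ^ 2 * t ^ 4 := by positivity
      have h7 := mul_le_mul_of_nonneg_left h5 h6
      calc 3 * (392 * (C : ℝ) ^ 3 * t ^ 4) * (49 * (C : ℝ) ^ 2 + 6 * t)
          = (C : ℝ) ^ 2 * t ^ 4 * (1176 * (C : ℝ) * (49 * (C : ℝ) ^ 2 + 6 * t)) := by ring
        _ ≤ (C : ℝ) ^ 2 * t ^ 4 * (4.9 * t ^ 2) := h7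
        _ = 0.1 * (49 * (C : ℝ) ^ 2 * t ^ 6) := by ring
    have hKpos : (0 : ℝ) < K := by linarith
    nlinarith
  have hpi := Chebyshev.pi_ge K
  have hfin : 3 * (392 * (C : ℝ) ^ 3 * t ^ 4) ≤ Nat.primeCounting K := by
    refine le_trans ?_ hpi
    rw [le_div_iff₀ hlogpos]
    exact hmain
  have hcast : ((3 * (392 * C ^ 3 * ((2000 * C ^ 2) ^ 2) ^ 2) : ℕ) : ℝ)
      = 3 * (392 * (C : ℝ) ^ 3 * t ^ 4) := by
    rw [ht]; push_cast; ring
  have : ((3 * (392 * C ^ 3 * ((2000 * C ^ 2) ^ 2) ^ 2) : ℕ) : ℝ) ≤ Nat.primeCounting K := by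
    rw [hcast]; exact hfin
  exact_mod_cast this

theorem many_primes (L K : ℕ) (h : 3 * L ≤ Nat.primeCounting K) :
    ∃ P : Finset ℕ, (∀ p ∈ P, p.Prime ∧ L < p ∧ p ≤ K) ∧ P.card = 2 * L := by
  classical
  let A : Finset ℕ := (Finset.range (K + 1)).filter Nat.Prime
  have hA : A.card = Nat.primeCounting K := by
    rw [Nat.primeCounting, Nat.primeCounting', Nat.count_eq_card_filter_range]
  have hsub : A ⊆ A.filter (fun p => L < p) ∪ Finset.Icc 1 L := by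
    intro p hp
    rw [Finset.mem_union, Finset.mem_filter, Finset.mem_Icc]
    by_cases hL : L < p
    · exact Or.inl ⟨hp, hL⟩
    · right
      have : p.Prime := (Finset.mem_filter.mp hp).2
      exact ⟨this.one_lt.le, not_lt.mp hL⟩
  have hcard := Finset.card_le_card hsub
  have h2 := Finset.card_union_le (A.filter (fun p => L < p)) (Finset.Icc 1 L)
  rw [Nat.card_Icc] at h2
  have h3 : 2 * L ≤ (A.filter (fun p => L < p)).card := by omega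
  obtain ⟨P, hP1, hP2⟩ := Finset.exists_subset_card_eq h3
  refine ⟨P, ?_, hP2⟩
  intro p hp
  have := hP1 hp
  rw [Finset.mem_filter, Finset.mem_filter, Finset.mem_range] at this
  exact ⟨this.1.2, this.2, by omega⟩

theorem good (L K : ℕ) (hL : 0 < L) (hK : 0 < K) (h : 3 * L ≤ Nat.primeCounting K) :
    ∃ d : ℕ, 0 < d ∧ d ≤ 4 * L * K ^ 2 ∧ ∃ φ : Heis →* Equiv.Perm (Fin d),
      ∀ g : Heis, |g.a| ≤ L → |g.b| ≤ L → |g.c| ≤ (L : ℤ) ^ 2 → g ≠ 1 →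
        L * (Finset.univ.filter (fun i => φ g i = i)).card ≤ d := by
  classical
  obtain ⟨P, hP, hcard⟩ := many_primes L K h
  let w : ℕ → ℕ := fun p => K ^ 2 / p ^ 2 + 1
  have hw1 : ∀ p ∈ P, K ^ 2 ≤ w p * p ^ 2 := by
    intro p hp
    have := Nat.lt_mul_div_succ (K ^ 2) (pow_pos (hP p hp).1.pos 2)
    show K ^ 2 ≤ (K ^ 2 / p ^ 2 + 1) * p ^ 2
    rw [mul_comm]
    exact this.le
  have hw2 : ∀ p ∈ P, w p * p ^ 2 ≤ 2 * K ^ 2 := by
    intro p hp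
    show (K ^ 2 / p ^ 2 + 1) * p ^ 2 ≤ 2 * K ^ 2
    have h1 : K ^ 2 / p ^ 2 * p ^ 2 ≤ K ^ 2 := Nat.div_mul_le_self _ _
    have h2 : p ^ 2 ≤ K ^ 2 := Nat.pow_le_pow_left (hP p hp).2.2 2
    rw [add_mul, one_mul]
    omega
  have hD1 : 2 * L * K ^ 2 ≤ ∑ p ∈ P, w p * p ^ 2 := by
    calc 2 * L * K ^ 2 = ∑ _p ∈ P, K ^ 2 := by rw [Finset.sum_const, hcard, smul_eq_mul]
      _ ≤ _ := Finset.sum_le_sum hw1
  have hD2 : ∑ p ∈ P, w p * p ^ 2 ≤ 4 * L * K ^ 2 := by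
    calc ∑ p ∈ P, w p * p ^ 2 ≤ ∑ _p ∈ P, 2 * K ^ 2 := Finset.sum_le_sum hw2
      _ = 4 * L * K ^ 2 := by rw [Finset.sum_const, hcard, smul_eq_mul]; ring
  have hbad : ∀ t : ℤ, t ≠ 0 → |t| ≤ (L : ℤ) ^ 2 →
      L * ∑ p ∈ P.filter (fun p : ℕ => ((p : ℤ) ∣ t)), w p * p ^ 2 ≤ ∑ p ∈ P, w p * p ^ 2 := by
    intro t ht ht2
    have hone : (P.filter (fun p : ℕ => ((p : ℤ) ∣ t))).card ≤ 1 := by
      rw [Finset.card_le_one]
      intro p hp q hq
      rw [Finset.mem_filter] at hp hq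
      by_contra hne
      have hcop : Nat.Coprime p q := (Nat.coprime_primes (hP p hp.1).1 (hP q hq.1).1).mpr hne
      have hdvd : ((p : ℤ) * (q : ℤ)) ∣ t :=
        IsCoprime.mul_dvd (Nat.isCoprime_iff_coprime.mpr hcop) hp.2 hq.2
      apply ht
      apply Int.eq_zero_of_abs_lt_dvd hdvd
      have h1 : (L : ℤ) < p := by exact_mod_cast (hP p hp.1).2.1
      have h2 : (L : ℤ) < q := by exact_mod_cast (hP q hq.1).2.1
      have h0 : (0 : ℤ) ≤ L := by positivity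
      nlinarith
    have hsum : ∑ p ∈ P.filter (fun p : ℕ => ((p : ℤ) ∣ t)), w p * p ^ 2 ≤ 2 * K ^ 2 := by
      calc ∑ p ∈ P.filter (fun p : ℕ => ((p : ℤ) ∣ t)), w p * p ^ 2
          ≤ ∑ _p ∈ P.filter (fun p : ℕ => ((p : ℤ) ∣ t)), 2 * K ^ 2 :=
            Finset.sum_le_sum (fun p hp => hw2 p (Finset.mem_filter.mp hp).1)
        _ = (P.filter (fun p : ℕ => ((p : ℤ) ∣ t))).card * (2 * K ^ 2) := by
            rw [Finset.sum_const, smul_eq_mul]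
        _ ≤ 1 * (2 * K ^ 2) := Nat.mul_le_mul_right _ hone
        _ = 2 * K ^ 2 := one_mul _
    calc L * ∑ p ∈ P.filter (fun p : ℕ => ((p : ℤ) ∣ t)), w p * p ^ 2
        ≤ L * (2 * K ^ 2) := Nat.mul_le_mul_left _ hsum
      _ = 2 * L * K ^ 2 := by ring
      _ ≤ _ := hD1
  obtain ⟨φ, hφ⟩ := approx L P (fun p hp => ⟨(hP p hp).1, (hP p hp).2.1⟩) w hbad
  refine ⟨_, ?_, hD2, φ, hφ⟩
  refine lt_of_lt_of_le ?_ hD1
  positivity

end Heis

end Pool.Agent.H104R3
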