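import Mathlib
import Pool.Agent.H961R3.Smyth.Stmts3

open scoped NumberField ComplexConjugate


namespace Pool.Agent.H104R3.SmythS16

open Finset

section realpart

variable {n : ℕ}

noncomputable def BB (b : Fin n → ℝ) : ℝ := ∑ j, b j
noncomputable def gam (b : Fin n → ℝ) (j : Fin n) : ℝ := 1 - 2 * b j / BB b
noncomputable def Th (b : Fin n → ℝ) : ℝ := ∑ j, b j ^ 2 / (BB b ^ 2 * gam b j)
noncomputable def DD (b : Fin n → ℝ) (j : Fin n) : ℝ := Real.sqrt ((1 + Th b) * gam b j)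
noncomputable def mm (b : Fin n → ℝ) (i j : Fin n) : ℝ := (if j = i then 1 else 0) - b j / BB b
noncomputable def QQ (b : Fin n → ℝ) (i : Fin n) : ℝ := ∑ j, b j * (mm b i j / DD b j ^ 2)
noncomputable def PP (b : Fin n → ℝ) (i : Fin n) : ℝ := ∑ j, mm b i j / DD b j ^ 2

structure Good (b : Fin n → ℝ) : Prop where
  n1 : 1 ≤ n
  nonneg : ∀ j, 0 ≤ b j
  lt : ∀ i, b i < ∑ j ∈ univ.erase i, b j

variable {b : Fin n → ℝ}

theorem Good.BB_pos (h : Good b) : 0 < BB b := by
  have i : Fin n := ⟨0, h.n1⟩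
  have h1 := h.lt i
  have h2 : ∑ j ∈ univ.erase i, b j ≤ BB b :=
    sum_le_sum_of_subset_of_nonneg (erase_subset _ _) (fun j _ _ => h.nonneg j)
  have := h.nonneg i
  linarith

theorem Good.gam_pos (h : Good b) (i : Fin n) : 0 < gam b i := by
  have h1 := h.lt i
  have h2 : b i + ∑ j ∈ univ.erase i, b j = BB b := add_sum_erase univ b (mem_univ i)
  unfold gam
  rw [sub_pos, div_lt_one h.BB_pos]
  linarith

theorem Good.sum_gam (h : Good b) : ∑ j, gam b j = (n : ℝ) - 2 := by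
  unfold gam
  rw [sum_sub_distrib]
  simp only [sum_const, card_univ, Fintype.card_fin, nsmul_eq_mul, mul_one]
  have h2 : ∑ j, 2 * b j / BB b = 2 := by
    rw [← sum_div, ← mul_sum]
    change 2 * BB b / BB b = 2
    have := h.BB_pos.ne'
    field_simp
  rw [h2]

theorem Good.n2 (h : Good b) : 0 < (n : ℝ) - 2 := by
  rw [← h.sum_gam]
  exact sum_pos (fun j _ => h.gam_pos j) ⟨⟨0, h.n1⟩, mem_univ _⟩

theorem Good.Th_nonneg (h : Good b) : 0 ≤ Th b :=
  sum_nonneg fun j _ => div_nonneg (sq_nonneg _) (mul_nonneg (sq_nonneg _) (h.gam_pos j).le)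

theorem Good.DD_sq (h : Good b) (j : Fin n) : DD b j ^ 2 = (1 + Th b) * gam b j :=
  Real.sq_sqrt (mul_nonneg (by linarith [h.Th_nonneg]) (h.gam_pos j).le)

theorem Good.DD_pos (h : Good b) (j : Fin n) : 0 < DD b j :=
  Real.sqrt_pos.2 (mul_pos (by linarith [h.Th_nonneg]) (h.gam_pos j))

theorem Good.sum_mm (h : Good b) (i : Fin n) : ∑ j, mm b i j = 0 := by
  unfold mm
  rw [sum_sub_distrib, sum_ite_eq' univ i, if_pos (mem_univ i), ← sum_div]
  change 1 - BB b / BB b = 0
  rw [div_self h.BB_pos.ne', sub_self]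

theorem Good.sum_mm_sq (h : Good b) (i : Fin n) : ∑ j, mm b i j ^ 2 / DD b j ^ 2 = 1 := by
  have hT : (1 + Th b) ≠ 0 := by linarith [h.Th_nonneg]
  have hB := h.BB_pos.ne'
  have h1 : ∀ j, mm b i j ^ 2 / DD b j ^ 2 =
      (b j ^ 2 / (BB b ^ 2 * gam b j)) / (1 + Th b) + if j = i then 1 / (1 + Th b) else 0 := by
    intro j
    have hg := (h.gam_pos j).ne'
    rw [h.DD_sq]
    by_cases hj : j = i
    · subst hj
      simp only [mm, if_true]
      have hg2 : gam b j = 1 - 2 * b j / BB b := rfl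
      have e : (1 - b j / BB b) ^ 2 = b j ^ 2 / BB b ^ 2 + gam b j := by
        rw [hg2]; field_simp; ring
      rw [e, add_div]
      congr 1
      · rw [div_div, div_div]
        congr 1
        ring
      · rw [div_eq_div_iff (mul_ne_zero hT hg) hT]
        ring
    · simp only [mm, if_neg hj, add_zero, zero_sub, neg_sq, div_pow]
      rw [div_div, div_div]
      congr 1
      ring
  rw [sum_congr rfl (fun j _ => h1 j), sum_add_distrib, sum_ite_eq' univ i, if_pos (mem_univ i),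
    ← sum_div]
  change Th b / (1 + Th b) + 1 / (1 + Th b) = 1
  rw [← add_div, add_comm, div_self hT]

theorem Good.PQ (h : Good b) (i : Fin n) : BB b * PP b i = 2 * QQ b i := by
  have hT : (1 + Th b) ≠ 0 := by linarith [h.Th_nonneg]
  have hB := h.BB_pos.ne'
  have : BB b * PP b i - 2 * QQ b i = 0 := by
    unfold PP QQ
    rw [mul_sum, mul_sum, ← sum_sub_distrib]
    have e : ∀ j, BB b * (mm b i j / DD b j ^ 2) - 2 * (b j * (mm b i j / DD b j ^ 2)) =
        (BB b / (1 + Th b)) * mm b i j := by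
      intro j
      have hg := (h.gam_pos j).ne'
      rw [h.DD_sq]
      have e2 : BB b - 2 * b j = BB b * gam b j := by
        unfold gam; field_simp
      have e3 : BB b * (mm b i j / ((1 + Th b) * gam b j)) -
          2 * (b j * (mm b i j / ((1 + Th b) * gam b j))) =
          (BB b - 2 * b j) * (mm b i j / ((1 + Th b) * gam b j)) := by ring
      rw [e3, e2]
      field_simp
    rw [sum_congr rfl (fun j _ => e j), ← mul_sum, h.sum_mm, mul_zero]
  linarith

theorem Good.wi (h : Good b) (i : Fin n) : mm b i i / DD b i ^ 2 - QQ b i / BB b = 1 := by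
  have hT : (1 + Th b) ≠ 0 := by linarith [h.Th_nonneg]
  have hB := h.BB_pos.ne'
  have hQ : QQ b i = b i / DD b i ^ 2 - BB b * (Th b / (1 + Th b)) := by
    unfold QQ
    have e : ∀ j, b j * (mm b i j / DD b j ^ 2) =
        (if j = i then b j / DD b j ^ 2 else 0) -
          BB b * ((b j ^ 2 / (BB b ^ 2 * gam b j)) / (1 + Th b)) := by
      intro j
      have hg := (h.gam_pos j).ne'
      rw [h.DD_sq]
      by_cases hj : j = i
      · subst hj
        simp only [mm, if_true]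
        field_simp
      · simp only [mm, if_neg hj]
        field_simp
        ring
    rw [sum_congr rfl (fun j _ => e j), sum_sub_distrib, sum_ite_eq' univ i,
      if_pos (mem_univ i), ← mul_sum, ← sum_div]
    rfl
  have hg := (h.gam_pos i).ne'
  rw [hQ, h.DD_sq]
  have e1 : mm b i i = 1 - b i / BB b := by simp [mm]
  rw [e1]
  have e2 : (1 - b i / BB b) / ((1 + Th b) * gam b i) -
      (b i / ((1 + Th b) * gam b i) - BB b * (Th b / (1 + Th b))) / BB b =
      (1 - 2 * b i / BB b) / ((1 + Th b) * gam b i) + Th b / (1 + Th b) := by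
    field_simp
    ring
  rw [e2]
  change gam b i / ((1 + Th b) * gam b i) + Th b / (1 + Th b) = 1
  field_simp

end realpart

section complexpart

variable {n : ℕ} {b : Fin n → ℝ}

noncomputable def rc (b : Fin n → ℝ) (z : Fin n → ℂ) (j : Fin n) : ℂ :=
  (DD b j : ℂ) * (z j - (∑ k, z k) / ((n : ℂ) - 2))

noncomputable def mc (b : Fin n → ℝ) (i : Fin n) (ζ : ℂ) (j : Fin n) : ℂ :=
  ζ * ((mm b i j / DD b j : ℝ) : ℂ)

noncomputable def wc (b : Fin n → ℝ) (i : Fin n) (ζ : ℂ) (j : Fin n) : ℂ :=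
  ζ * ((mm b i j / DD b j ^ 2 - QQ b i / BB b : ℝ) : ℂ)

theorem pyth (u : Fin n → ℝ) (hu : ∑ j, u j ^ 2 = 1) (p : Fin n → ℂ) (ζ : ℂ)
    (hp : ∑ j, (u j : ℂ) * p j = ζ) :
    ∑ j, ‖p j‖ ^ 2 = ‖ζ‖ ^ 2 + ∑ j, ‖p j - ζ * (u j : ℂ)‖ ^ 2 := by
  have e : ∀ j, ‖p j - ζ * (u j : ℂ)‖ ^ 2 =
      ‖p j‖ ^ 2 + ‖ζ‖ ^ 2 * u j ^ 2 - 2 * (conj ζ * ((u j : ℂ) * p j)).re := by
    intro j
    rw [Complex.sq_norm, Complex.sq_norm, Complex.sq_norm, Complex.normSq_apply,
      Complex.normSq_apply, Complex.normSq_apply]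
    simp only [Complex.sub_re, Complex.mul_re, Complex.ofReal_re, Complex.ofReal_im,
      Complex.sub_im, Complex.mul_im, Complex.conj_re, Complex.conj_im]
    ring
  have h2 : (conj ζ * ζ).re = ‖ζ‖ ^ 2 := by
    rw [Complex.sq_norm, Complex.normSq_apply]
    simp only [Complex.mul_re, Complex.conj_re, Complex.conj_im]
    ring
  rw [sum_congr rfl (fun j _ => e j), sum_sub_distrib, sum_add_distrib, ← mul_sum, hu,
    ← mul_sum, ← Complex.re_sum, ← mul_sum, hp, h2]
  ring

theorem rc_dot (h : Good b) (i : Fin n) (z : Fin n → ℂ) (hz : ∑ j, (b j : ℂ) * z j = 0) :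
    ∑ j, ((mm b i j / DD b j : ℝ) : ℂ) * rc b z j = z i := by
  have hB : (BB b : ℂ) ≠ 0 := by exact_mod_cast h.BB_pos.ne'
  have e : ∀ j, ((mm b i j / DD b j : ℝ) : ℂ) * rc b z j =
      ((if j = i then z j else 0) - (1 / (BB b : ℂ)) * ((b j : ℂ) * z j)) -
        (mm b i j : ℂ) * ((∑ k, z k) / ((n : ℂ) - 2)) := by
    intro j
    have hD : (DD b j : ℂ) ≠ 0 := by exact_mod_cast (h.DD_pos j).ne'
    have e1 : (mm b i j : ℂ) * z j =
        (if j = i then z j else 0) - (1 / (BB b : ℂ)) * ((b j : ℂ) * z j) := by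
      unfold mm
      split_ifs with hj
      · push_cast; field_simp
      · push_cast; field_simp; ring
    rw [← e1, ← mul_sub]
    unfold rc
    push_cast
    field_simp
  rw [sum_congr rfl (fun j _ => e j), sum_sub_distrib, sum_sub_distrib, ← mul_sum, hz,
    sum_ite_eq' univ i, if_pos (mem_univ i), ← sum_mul]
  have : ∑ j, (mm b i j : ℂ) = 0 := by
    rw [← Complex.ofReal_sum, h.sum_mm, Complex.ofReal_zero]
  rw [this]
  ring

theorem u_sq (h : Good b) (i : Fin n) : ∑ j, (mm b i j / DD b j) ^ 2 = 1 := by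
  rw [← h.sum_mm_sq i]
  exact sum_congr rfl fun j _ => div_pow _ _ _

theorem sum_wc (h : Good b) (i : Fin n) (ζ : ℂ) :
    (∑ k, wc b i ζ k) / ((n : ℂ) - 2) = ζ * ((- QQ b i / BB b : ℝ) : ℂ) := by
  have hn : ((n : ℂ) - 2) ≠ 0 := by
    have := h.n2.ne'
    exact_mod_cast this
  rw [div_eq_iff hn]
  unfold wc
  rw [← mul_sum, ← Complex.ofReal_sum, sum_sub_distrib]
  have hB := h.BB_pos.ne'
  have hP : PP b i = 2 * QQ b i / BB b := by
    rw [eq_div_iff hB, mul_comm]; exact h.PQ i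
  change ζ * ((PP b i - ∑ _j : Fin n, QQ b i / BB b : ℝ) : ℂ) = _
  rw [hP, sum_const, card_univ, Fintype.card_fin, nsmul_eq_mul]
  push_cast
  ring

theorem rc_wc (h : Good b) (i : Fin n) (ζ : ℂ) (j : Fin n) :
    rc b (wc b i ζ) j = mc b i ζ j := by
  unfold rc
  rw [sum_wc h]
  unfold wc mc
  have hD : (DD b j : ℂ) ≠ 0 := by exact_mod_cast (h.DD_pos j).ne'
  push_cast
  field_simp
  ring

theorem sum_b_wc (h : Good b) (i : Fin n) (ζ : ℂ) : ∑ j, (b j : ℂ) * wc b i ζ j = 0 := by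
  have hB := h.BB_pos.ne'
  have e : ∀ j, (b j : ℂ) * wc b i ζ j =
      ζ * ((b j * (mm b i j / DD b j ^ 2) - b j * (QQ b i / BB b) : ℝ) : ℂ) := by
    intro j
    unfold wc
    push_cast
    ring
  rw [sum_congr rfl (fun j _ => e j), ← mul_sum, ← Complex.ofReal_sum, sum_sub_distrib, ← sum_mul]
  change ζ * ((QQ b i - BB b * (QQ b i / BB b) : ℝ) : ℂ) = 0
  rw [mul_div_cancel₀ _ hB, sub_self, Complex.ofReal_zero, mul_zero]

theorem wc_self (h : Good b) (i : Fin n) (ζ : ℂ) : wc b i ζ i = ζ := by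
  unfold wc
  rw [h.wi, Complex.ofReal_one, mul_one]

end complexpart

section nf

open Pool.Agent.H961R3.Smyth

variable {K : Type} [Field K] [NumberField K] {n : ℕ} (a : Fin n → 𝓞 K)

noncomputable def bb (σ : K →+* ℂ) (j : Fin n) : ℝ := ‖σ (a j : K)‖

noncomputable def eps (σ : K →+* ℂ) (j : Fin n) : ℂ :=
  if σ (a j : K) = 0 then 1 else σ (a j : K) / (‖σ (a j : K)‖ : ℂ)

theorem good_bb (hn : 1 ≤ n) (hA : StrongArch K n a) (σ : K →+* ℂ) : Good (bb a σ) := by
  refine ⟨hn, fun j => norm_nonneg _, fun i => ?_⟩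
  have := hA (NumberField.InfinitePlace.mk σ) i
  simpa [bb, NumberField.InfinitePlace.apply] using this

theorem norm_eps (σ : K →+* ℂ) (j : Fin n) : ‖eps a σ j‖ = 1 := by
  unfold eps
  split_ifs with h
  · simp
  · have h' : ‖σ (a j : K)‖ ≠ 0 := norm_ne_zero_iff.2 h
    rw [norm_div, Complex.norm_real, norm_norm, div_self h']

theorem eps_mul_conj (σ : K →+* ℂ) (j : Fin n) : eps a σ j * conj (eps a σ j) = 1 := by
  rw [Complex.mul_conj, Complex.normSq_eq_norm_sq, norm_eps]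
  simp

theorem eps_bb (σ : K →+* ℂ) (j : Fin n) : eps a σ j * (bb a σ j : ℂ) = σ (a j : K) := by
  unfold eps bb
  split_ifs with h
  · simp [h]
  · have h' : (‖σ (a j : K)‖ : ℂ) ≠ 0 := by
      exact_mod_cast norm_ne_zero_iff.2 h
    rw [div_mul_cancel₀ _ h']

theorem bb_conj (σ : K →+* ℂ) : bb a (NumberField.ComplexEmbedding.conjugate σ) = bb a σ := by
  funext j
  simp [bb]

theorem eps_conj (σ : K →+* ℂ) (j : Fin n) :
    eps a (NumberField.ComplexEmbedding.conjugate σ) j = conj (eps a σ j) := by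
  unfold eps
  rw [NumberField.ComplexEmbedding.conjugate_coe_eq]
  by_cases h : σ (a j : K) = 0
  · simp [h]
  · have h' : conj (σ (a j : K)) ≠ 0 := by simpa using h
    rw [if_neg h, if_neg h', map_div₀, Complex.conj_ofReal, RCLike.norm_conj]

noncomputable def RC : (Fin n → (K →+* ℂ) → ℂ) →ₗ[ℝ] ((K →+* ℂ) → Fin n → ℂ) where
  toFun y σ j := rc (bb a σ) (fun k => eps a σ k * y k σ) j
  map_add' y y' := by
    funext σ j
    simp only [rc, Pi.add_apply, mul_add, sum_add_distrib]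
    ring
  map_smul' c y := by
    funext σ j
    simp only [rc, Pi.smul_apply, Complex.real_smul, RingHom.id_apply]
    have : ∀ k, eps a σ k * ((c : ℂ) * y k σ) = (c : ℂ) * (eps a σ k * y k σ) := fun k => by ring
    simp only [this, ← mul_sum]
    ring

noncomputable def toE : ((K →+* ℂ) → Fin n → ℂ) →ₗ[ℝ]
    EuclideanSpace ℝ ((K →+* ℂ) × Fin n × Fin 2) where
  toFun f := WithLp.toLp 2 fun p => if p.2.2 = 0 then (f p.1 p.2.1).re else (f p.1 p.2.1).im
  map_add' f g := by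
    ext p
    by_cases h : p.2.2 = 0 <;> simp [h]
  map_smul' c f := by
    ext p
    by_cases h : p.2.2 = 0 <;> simp [h]

theorem norm_toE (f : (K →+* ℂ) → Fin n → ℂ) : ‖toE f‖ ^ 2 = ∑ σ, ∑ j, ‖f σ j‖ ^ 2 := by
  rw [EuclideanSpace.real_norm_sq_eq, Fintype.sum_prod_type]
  refine sum_congr rfl fun σ _ => ?_
  rw [Fintype.sum_prod_type]
  refine sum_congr rfl fun j _ => ?_
  rw [Fin.sum_univ_two, Complex.sq_norm, Complex.normSq_apply]
  simp [toE]
  ring

noncomputable def rr : (Fin n → 𝓞 K) →+ EuclideanSpace ℝ ((K →+* ℂ) × Fin n × Fin 2) :=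
  AddMonoidHom.mk' (fun x => toE (RC a (fun j => emb K (x j)))) (by
    intro x y
    rw [← map_add, ← map_add]
    congr 2
    funext j σ
    simp [emb])

noncomputable def MM (i : Fin n) (c : 𝓞 K) : EuclideanSpace ℝ ((K →+* ℂ) × Fin n × Fin 2) :=
  toE fun σ j => mc (bb a σ) i (eps a σ i * σ (c : K)) j

theorem rel_z {a : Fin n → 𝓞 K} {x : Fin n → 𝓞 K} (hx : ∑ j, a j * x j = 0) (σ : K →+* ℂ) :
    ∑ j, σ (a j : K) * σ (x j : K) = 0 := by
  have h1 : (algebraMap (𝓞 K) K) (∑ j, a j * x j) = 0 := by rw [hx, map_zero]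
  have h2 : σ ((algebraMap (𝓞 K) K) (∑ j, a j * x j)) = 0 := by rw [h1, map_zero]
  rw [map_sum, map_sum] at h2
  rw [← h2]
  refine sum_congr rfl fun j _ => ?_
  rw [map_mul, map_mul]

theorem cond1 (hn : 1 ≤ n) (hA : StrongArch K n a) (x : Fin n → 𝓞 K)
    (hx : ∑ j, a j * x j = 0) (i : Fin n) :
    ‖rr a x‖ ^ 2 = qq K (x i) + ‖rr a x - MM a i (x i)‖ ^ 2 := by
  have e1 : rr a x = toE (RC a (fun j => emb K (x j))) := rfl
  have e2 : rr a x - MM a i (x i) =
      toE (fun σ j => RC a (fun j => emb K (x j)) σ j -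
        mc (bb a σ) i (eps a σ i * σ (x i : K)) j) := by
    rw [e1, MM, ← map_sub]
    rfl
  rw [e2, e1, norm_toE, norm_toE, qq, ← sum_add_distrib]
  refine sum_congr rfl fun σ _ => ?_
  have hG := good_bb a hn hA σ
  have hz : ∑ j, (bb a σ j : ℂ) * (eps a σ j * emb K (x j) σ) = 0 := by
    rw [← rel_z hx σ]
    refine sum_congr rfl fun j _ => ?_
    rw [← eps_bb a σ j, emb]
    ring
  have := pyth (fun j => mm (bb a σ) i j / DD (bb a σ) j) (u_sq hG i)
    (RC a (fun j => emb K (x j)) σ) (eps a σ i * σ (x i : K)) (rc_dot hG i _ hz)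
  rw [this, norm_mul, norm_eps, one_mul]
  rfl

theorem s16 : S16 := by
  intro h10 K _ _ n a hn hA
  refine ⟨(K →+* ℂ) × Fin n × Fin 2, inferInstance, rr a, MM a,
    fun x hx i => cond1 a hn hA x hx i, fun i => ?_⟩
  obtain ⟨m, b, hb, hspan⟩ := h10 K n a i hA
  refine ⟨m, b, hb, fun x hx => ?_⟩
  set y : Fin n → (K →+* ℂ) → ℂ := fun j σ =>
    conj (eps a σ j) * wc (bb a σ) i (eps a σ i * σ (x i : K)) j with hy
  set z : Fin n → (K →+* ℂ) → ℂ := fun j σ => emb K (x j) σ - y j σ with hz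
  have hyi : ∀ σ, y i σ = σ (x i : K) := by
    intro σ
    simp only [hy]
    rw [wc_self (good_bb a hn hA σ), ← mul_assoc, mul_comm (conj _), eps_mul_conj, one_mul]
  have hyrel : ∀ σ : K →+* ℂ, ∑ j, σ (a j : K) * y j σ = 0 := by
    intro σ
    rw [← sum_b_wc (good_bb a hn hA σ) i (eps a σ i * σ (x i : K))]
    refine sum_congr rfl fun j _ => ?_
    simp only [hy]
    rw [← eps_bb a σ j]
    calc eps a σ j * (bb a σ j : ℂ) * (conj (eps a σ j) *
          wc (bb a σ) i (eps a σ i * σ (x i : K)) j)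
        = (eps a σ j * conj (eps a σ j)) * ((bb a σ j : ℂ) *
          wc (bb a σ) i (eps a σ i * σ (x i : K)) j) := by ring
      _ = _ := by rw [eps_mul_conj, one_mul]
  have hyconj : ∀ j σ, y j (NumberField.ComplexEmbedding.conjugate σ) = conj (y j σ) := by
    intro j σ
    simp only [hy, wc, bb_conj, eps_conj, NumberField.ComplexEmbedding.conjugate_coe_eq,
      map_mul, Complex.conj_ofReal]
  obtain ⟨t, ht⟩ := hspan z (by
      intro j σ
      simp only [hz, hyconj, map_sub, emb, NumberField.ComplexEmbedding.conjugate_coe_eq])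
    (by
      funext σ
      simp only [hz, hyi, emb, sub_self, Pi.zero_apply])
    (by
      intro σ
      simp only [hz, mul_sub, sum_sub_distrib, hyrel, emb, rel_z hx, sub_self])
  refine ⟨t, ?_⟩
  have hRy : (fun σ j => mc (bb a σ) i (eps a σ i * σ (x i : K)) j) = RC a y := by
    funext σ j
    change _ = rc (bb a σ) (fun k => eps a σ k * y k σ) j
    have : (fun k => eps a σ k * y k σ) = wc (bb a σ) i (eps a σ i * σ (x i : K)) := by
      funext k
      simp only [hy]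
      rw [← mul_assoc, eps_mul_conj, one_mul]
    rw [this, rc_wc (good_bb a hn hA σ)]
  have hzt : z = ∑ l, t l • (fun j => emb K (b l j)) := by
    funext j σ
    rw [ht j σ]
    simp only [Finset.sum_apply, Pi.smul_apply, Complex.real_smul]
  have e1 : rr a x - MM a i (x i) = toE (RC a z) := by
    change toE (RC a (fun j => emb K (x j))) - toE _ = _
    rw [hRy, ← map_sub, ← map_sub]
    rfl
  rw [e1, hzt, map_sum, map_sum]
  refine sum_congr rfl fun l _ => ?_
  rw [map_smul, map_smul]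
  rfl

end nf

end Pool.Agent.H104R3.SmythS16
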