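import Mathlib

set_option autoImplicit false

/-! A metric on the circle for which the span is smaller than the semi-span. -/

namespace Pool.Agent.H104R3.Span

open Metric Set Real

/-- the unit circle -/
abbrev S := ↥(Metric.sphere (0 : ℂ) 1)

/-- parametrisation of the circle with period one -/
noncomputable def e (t : ℝ) : S :=
  ⟨Complex.exp ((2 * π * t : ℝ) * Complex.I), by
    rw [mem_sphere_zero_iff_norm, Complex.norm_exp_ofReal_mul_I]⟩

lemma e_cont : Continuous e := by
  unfold e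
  apply Continuous.subtype_mk
  fun_prop

lemma e_eq {a b : ℝ} (h : e a = e b) : ∃ n : ℤ, a = b + n := by
  have h1 : Complex.exp ((2 * π * a : ℝ) * Complex.I) = Complex.exp ((2 * π * b : ℝ) * Complex.I) :=
    congrArg Subtype.val h
  rw [Complex.exp_eq_exp_iff_exists_int] at h1
  obtain ⟨n, hn⟩ := h1
  refine ⟨n, ?_⟩
  have hn2 := congrArg Complex.im hn
  simp at hn2
  have hpi := Real.pi_pos
  have : 2 * π * a = 2 * π * (b + n) := by linarith
  exact mul_left_cancel₀ (by positivity) this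

lemma e_add_int (a : ℝ) (n : ℤ) : e (a + n) = e a := by
  unfold e
  apply Subtype.ext
  simp only
  rw [Complex.exp_eq_exp_iff_exists_int]
  exact ⟨n, by push_cast; ring⟩

lemma e_surj (z : S) : ∃ t : ℝ, e t = z := by
  refine ⟨Complex.arg z / (2 * π), ?_⟩
  apply Subtype.ext
  have hz : ‖(z : ℂ)‖ = 1 := by
    have := z.2
    rwa [mem_sphere_zero_iff_norm] at this
  have hpi := Real.pi_pos
  have h1 : 2 * π * (Complex.arg z / (2 * π)) = Complex.arg z := by field_simp
  show Complex.exp ((2 * π * (Complex.arg z / (2 * π)) : ℝ) * Complex.I) = z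
  rw [h1]
  have := Complex.norm_mul_exp_arg_mul_I (z : ℂ)
  rwa [hz, Complex.ofReal_one, one_mul] at this

/-- the path -/
noncomputable def path (t : ℝ) : S × S := (e (t + 1 / 8), e (-1 / 6 + t / 3))

lemma path_cont : Continuous path := by
  unfold path
  exact (e_cont.comp (by fun_prop)).prodMk (e_cont.comp (by fun_prop))

/-- its image -/
def A : Set (S × S) := path '' Icc 0 1

/-- the mirror image -/
def B : Set (S × S) := Prod.swap '' A

lemma A_compact : IsCompact A := isCompact_Icc.image path_cont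
lemma B_compact : IsCompact B := A_compact.image continuous_swap

lemma A_conn : IsConnected A := (isConnected_Icc (by norm_num)).image _ path_cont.continuousOn

lemma A_nonempty : A.Nonempty := A_conn.nonempty

lemma fst_A : Prod.fst '' A = univ := by
  apply eq_univ_of_forall
  intro z
  obtain ⟨t, rfl⟩ := e_surj z
  refine ⟨path (Int.fract (t - 1 / 8)), ⟨_, ⟨Int.fract_nonneg _, (Int.fract_lt_one _).le⟩, rfl⟩, ?_⟩
  show e (Int.fract (t - 1 / 8) + 1 / 8) = e t
  have h : t = (Int.fract (t - 1 / 8) + 1 / 8) + (⌊t - 1 / 8⌋ : ℤ) := by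
    have := Int.fract_add_floor (t - 1 / 8)
    linarith
  conv_rhs => rw [h]
  rw [e_add_int]

lemma disj : Disjoint A B := by
  rw [Set.disjoint_left]
  rintro p ⟨t, ⟨ht0, ht1⟩, rfl⟩ ⟨q, ⟨u, ⟨hu0, hu1⟩, rfl⟩, hq⟩
  simp only [path, Prod.swap_prod_mk, Prod.mk.injEq] at hq
  obtain ⟨h1, h2⟩ := hq
  obtain ⟨k, hk⟩ := e_eq h1
  obtain ⟨m, hm⟩ := e_eq h2
  -- -1/6 + u/3 = t + 1/8 + k ; u + 1/8 = -1/6 + t/3 + m
  have k1 : (k : ℝ) < 1 := by linarith
  have k2 : (-2 : ℝ) < k := by linarith
  have m1 : (m : ℝ) < 2 := by linarith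
  have m2 : (-1 : ℝ) < m := by linarith
  have k1' : k < 1 := by exact_mod_cast k1
  have k2' : -2 < k := by exact_mod_cast k2
  have m1' : m < 2 := by exact_mod_cast m1
  have m2' : -1 < m := by exact_mod_cast m2
  have hk' : k = -1 ∨ k = 0 := by omega
  have hm' : m = 0 ∨ m = 1 := by omega
  rcases hk' with rfl | rfl <;> rcases hm' with rfl | rfl <;> push_cast at hk hm <;> linarith

lemma offdiag {p : S × S} (hp : p ∈ A ∪ B) : p.1 ≠ p.2 := by
  have key : ∀ q ∈ A, q.1 ≠ q.2 := by
    rintro q ⟨t, ⟨ht0, ht1⟩, rfl⟩ h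
    obtain ⟨k, hk⟩ := e_eq h
    have k1 : (k : ℝ) < 1 := by linarith
    have k2 : (0 : ℝ) < k := by linarith
    have k1' : k < 1 := by exact_mod_cast k1
    have k2' : 0 < k := by exact_mod_cast k2
    omega
  rcases hp with hp | ⟨q, hq, rfl⟩
  · exact key p hp
  · exact fun h => key q hq h.symm

/-- open half circle -/
def H : Set S := {z | 0 < (z : ℂ).re}

lemma H_open : IsOpen H := isOpen_lt continuous_const (Complex.continuous_re.comp continuous_subtype_val)

lemma snd_A_H : Prod.snd '' A ⊆ H := by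
  rintro z ⟨q, ⟨t, ⟨ht0, ht1⟩, rfl⟩, rfl⟩
  show 0 < (Complex.exp ((2 * π * (-1 / 6 + t / 3) : ℝ) * Complex.I)).re
  rw [Complex.exp_ofReal_mul_I_re]
  have hpi := Real.pi_pos
  apply Real.cos_pos_of_mem_Ioo
  constructor <;> nlinarith

lemma im_inj {x y : S} (hx : x ∈ H) (hy : y ∈ H) (h : (x : ℂ).im = (y : ℂ).im) : x = y := by
  have hx1 : ‖(x : ℂ)‖ = 1 := by
    have := x.2
    rwa [mem_sphere_zero_iff_norm] at this
  have hy1 : ‖(y : ℂ)‖ = 1 := by
    have := y.2
    rwa [mem_sphere_zero_iff_norm] at this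
  apply Subtype.ext
  apply Complex.ext _ h
  have h1 : (x : ℂ).re ^ 2 + (x : ℂ).im ^ 2 = 1 := by
    have := Complex.sq_norm (x : ℂ)
    rw [hx1, Complex.normSq_apply] at this
    nlinarith
  have h2 : (y : ℂ).re ^ 2 + (y : ℂ).im ^ 2 = 1 := by
    have := Complex.sq_norm (y : ℂ)
    rw [hy1, Complex.normSq_apply] at this
    nlinarith
  have hx' : 0 < (x : ℂ).re := hx
  have hy' : 0 < (y : ℂ).re := hy
  have h3 : (x : ℂ).re ^ 2 = (y : ℂ).re ^ 2 := by rw [h] at h1; linarith
  nlinarith [sq_nonneg ((x : ℂ).re - (y : ℂ).re)]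

/-- a connected set over a half circle with equal projections comes close to the diagonal -/
lemma no_conn {Z : Set (S × S)} (hZ : IsConnected Z) (hproj : Prod.fst '' Z = Prod.snd '' Z)
    {W : Set S} (hW : IsClosed W) (hWH : W ⊆ H) (hZW : Prod.fst '' Z ⊆ W) {c : ℝ} (hc : 0 < c)
    (hd : ∀ p ∈ Z, c ≤ dist p.1 p.2) : False := by
  set K := closure Z with hK
  have hKc : IsCompact K := isClosed_closure.isCompact
  have hKconn : IsConnected K := hZ.closure
  have h1 : Prod.fst '' K = Prod.snd '' K := by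
    rw [hK, image_closure_of_isCompact hKc continuous_fst.continuousOn,
      image_closure_of_isCompact hKc continuous_snd.continuousOn, hproj]
  have h2 : Prod.fst '' K ⊆ W := by
    rw [hK, image_closure_of_isCompact hKc continuous_fst.continuousOn]
    exact closure_minimal hZW hW
  have h3 : ∀ p ∈ K, c ≤ dist p.1 p.2 := by
    have hcl : IsClosed {p : S × S | c ≤ dist p.1 p.2} :=
      isClosed_le continuous_const (continuous_fst.dist continuous_snd)
    exact fun p hp => closure_minimal (fun q hq => hd q hq) hcl hp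
  have hPc : IsCompact (Prod.fst '' K) := hKc.image continuous_fst
  have hPne : (Prod.fst '' K).Nonempty := hKconn.nonempty.image _
  have himc : Continuous (fun z : S => (z : ℂ).im) := Complex.continuous_im.comp continuous_subtype_val
  obtain ⟨M, hM, hMmax⟩ := hPc.exists_isMaxOn hPne himc.continuousOn
  obtain ⟨z1, hz1, hz1M⟩ := hM
  have hM2 : M ∈ Prod.snd '' K := by rw [← h1]; exact ⟨z1, hz1, hz1M⟩
  obtain ⟨z2, hz2, hz2M⟩ := hM2
  have g1 : ((z1.2 : S) : ℂ).im - ((z1.1 : S) : ℂ).im ≤ 0 := by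
    have : z1.2 ∈ Prod.fst '' K := by rw [h1]; exact ⟨z1, hz1, rfl⟩
    have := hMmax this
    simp only [mem_ofPred_eq] at this
    rw [hz1M]
    linarith
  have g2 : 0 ≤ ((z2.2 : S) : ℂ).im - ((z2.1 : S) : ℂ).im := by
    have : z2.1 ∈ Prod.fst '' K := ⟨z2, hz2, rfl⟩
    have := hMmax this
    simp only [mem_ofPred_eq] at this
    rw [hz2M]
    linarith
  have hg : ContinuousOn (fun p : S × S => ((p.2 : S) : ℂ).im - ((p.1 : S) : ℂ).im) K :=
    ((himc.comp continuous_snd).sub (himc.comp continuous_fst)).continuousOn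
  obtain ⟨z, hz, hz0⟩ := hKconn.isPreconnected.intermediate_value hz1 hz2 hg ⟨g1, g2⟩
  have hz0' : ((z.1 : S) : ℂ).im = ((z.2 : S) : ℂ).im := by
    simp only at hz0
    linarith
  have hzz : z.1 = z.2 := by
    refine im_inj (hWH (h2 ⟨z, hz, rfl⟩)) (hWH (h2 ?_)) hz0'
    rw [h1]
    exact ⟨z, hz, rfl⟩
  have := h3 z hz
  rw [hzz, dist_self] at this
  linarith

/-- the choice of the small radius -/
lemma exists_r : ∃ r : ℝ, 0 < r ∧ (∀ p ∈ A ∪ B, 4 * r ≤ dist p.1 p.2) ∧
    Disjoint (thickening r A) (thickening r B) ∧ cthickening r (Prod.snd '' A) ⊆ H := by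
  have hAB : IsCompact (A ∪ B) := A_compact.union B_compact
  have hne : (A ∪ B).Nonempty := A_nonempty.mono subset_union_left
  have hdc : ContinuousOn (fun p : S × S => dist p.1 p.2) (A ∪ B) :=
    (continuous_fst.dist continuous_snd).continuousOn
  obtain ⟨m, hm, hmin⟩ := hAB.exists_isMinOn hne hdc
  have hm0 : 0 < dist m.1 m.2 := dist_pos.2 (offdiag hm)
  obtain ⟨r1, hr1, hd1⟩ := disj.exists_thickenings A_compact B_compact.isClosed
  obtain ⟨r2, hr2, hd2⟩ := (A_compact.image continuous_snd).exists_cthickening_subset_open H_open snd_A_H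
  refine ⟨min (dist m.1 m.2 / 4) (min r1 r2), by positivity, ?_, ?_, ?_⟩
  · intro p hp
    have h1 := hmin hp
    simp only [mem_ofPred_eq] at h1
    have h2 : min (dist m.1 m.2 / 4) (min r1 r2) ≤ dist m.1 m.2 / 4 := min_le_left _ _
    linarith
  · exact hd1.mono (thickening_mono (le_trans (min_le_right _ _) (min_le_left _ _)) _)
      (thickening_mono (le_trans (min_le_right _ _) (min_le_left _ _)) _)
  · exact (cthickening_mono (le_trans (min_le_right _ _) (min_le_right _ _)) _).trans hd2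

end Pool.Agent.H104R3.Span
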