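import Pool.Agent.H104R3.Span

set_option autoImplicit false

/-! A metric on the circle for which the span is smaller than the semi-span: the metric. -/

namespace Pool.Agent.H104R3.Span

open Metric Set Real

/-- the small radius -/
noncomputable def r : ℝ := exists_r.choose
lemma r_pos : 0 < r := exists_r.choose_spec.1
lemma r_diag : ∀ p ∈ A ∪ B, 4 * r ≤ dist p.1 p.2 := exists_r.choose_spec.2.1
lemma r_disj : Disjoint (thickening r A) (thickening r B) := exists_r.choose_spec.2.2.1
lemma r_half : cthickening r (Prod.snd '' A) ⊆ H := exists_r.choose_spec.2.2.2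

/-- the bump -/
noncomputable def w (x y : S) : ℝ := max 0 (1 - infDist (x, y) (A ∪ B) / r)

lemma w_nonneg (x y : S) : 0 ≤ w x y := le_max_left _ _
lemma w_le (x y : S) : w x y ≤ 1 := by
  unfold w
  apply max_le zero_le_one
  have h1 : 0 ≤ infDist (x, y) (A ∪ B) := infDist_nonneg
  have h2 := r_pos
  have : 0 ≤ infDist (x, y) (A ∪ B) / r := by positivity
  linarith

lemma AB_swap : Prod.swap '' (A ∪ B) = A ∪ B := by
  rw [image_union]
  unfold B
  rw [← image_comp]
  simp only [Prod.swap_swap_eq, image_id]
  exact union_comm _ _

lemma infDist_swap (x y : S) : infDist (x, y) (A ∪ B) = infDist (y, x) (A ∪ B) := by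
  have hiso : Isometry (Prod.swap : S × S → S × S) := by
    apply Isometry.of_dist_eq
    intro p q
    simp only [Prod.dist_eq, Prod.fst_swap, Prod.snd_swap]
    exact max_comm _ _
  have h := infDist_image (x := (x, y)) (t := A ∪ B) hiso
  rw [AB_swap] at h
  exact h.symm

lemma w_comm (x y : S) : w x y = w y x := by
  unfold w
  rw [infDist_swap]

lemma w_lip (x y z : S) : w x z ≤ w y z + dist x y / r := by
  unfold w
  have h2 := r_pos
  have h1 : infDist (y, z) (A ∪ B) ≤ infDist (x, z) (A ∪ B) + dist (y, z) (x, z) :=
    infDist_le_infDist_add_dist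
  have h3 : dist (y, z) (x, z) = dist x y := by
    rw [Prod.dist_eq]
    simp [dist_comm]
  rw [h3] at h1
  have h4 : 0 ≤ dist x y / r := by positivity
  apply max_le
  · have := le_max_left 0 (1 - infDist (y, z) (A ∪ B) / r)
    linarith
  · have h5 := le_max_right 0 (1 - infDist (y, z) (A ∪ B) / r)
    have h6 : infDist (y, z) (A ∪ B) / r ≤ (infDist (x, z) (A ∪ B) + dist x y) / r := by gcongr
    rw [add_div] at h6
    linarith

lemma w_near {x y : S} (h : dist x y < 2 * r) : w x y = 0 := by
  unfold w
  have h2 := r_pos
  apply max_eq_left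
  rw [sub_nonpos, one_le_div h2]
  by_contra hlt
  push Not at hlt
  obtain ⟨p, hp, hd⟩ := (infDist_lt_iff (A_nonempty.mono subset_union_left)).1 hlt
  have h3 := r_diag p hp
  rw [Prod.dist_eq] at hd
  simp only [sup_lt_iff] at hd
  have h4 := dist_triangle4 p.1 x y p.2
  have h5 : dist p.1 x < r := by rw [dist_comm]; exact hd.1
  have h6 : dist y p.2 < r := hd.2
  linarith

/-- the new distance -/
noncomputable def D (x y : S) : ℝ := min 1 (dist x y / r) + w x y

lemma D_comm (x y : S) : D x y = D y x := by
  unfold D
  rw [w_comm, dist_comm]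

lemma D_self (x : S) : D x x = 0 := by
  unfold D
  have := r_pos
  rw [w_near (by rw [dist_self]; positivity)]
  simp

lemma D_le_two (x y : S) : D x y ≤ 2 := by
  unfold D
  have := w_le x y
  have := min_le_left 1 (dist x y / r)
  linarith

lemma D_ge (x y : S) : min 1 (dist x y / r) ≤ D x y := by
  unfold D
  have := w_nonneg x y
  linarith

lemma D_tri_aux (x y z : S) (h : dist x y < r) : D x z ≤ D x y + D y z := by
  have hr := r_pos
  have h1 : dist x y / r ≤ D x y := by
    refine le_trans ?_ (D_ge x y)
    apply le_min _ le_rfl
    rw [div_le_one hr]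
    exact h.le
  rcases lt_or_ge (dist y z) r with h2 | h2
  · have h3 : dist x z < 2 * r := by
      have := dist_triangle x y z
      linarith
    have h4 : D x z = min 1 (dist x z / r) := by
      unfold D
      rw [w_near h3]
      simp
    have h5 : dist y z / r ≤ D y z := by
      refine le_trans ?_ (D_ge y z)
      apply le_min _ le_rfl
      rw [div_le_one hr]
      exact h2.le
    rw [h4]
    calc min 1 (dist x z / r) ≤ dist x z / r := min_le_right _ _
      _ ≤ (dist x y + dist y z) / r := by gcongr; exact dist_triangle x y z
      _ = dist x y / r + dist y z / r := add_div _ _ _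
      _ ≤ _ := by linarith
  · have h3 : D y z = 1 + w y z := by
      unfold D
      rw [min_eq_left]
      rw [one_le_div hr]
      exact h2
    rw [h3]
    have h4 := w_lip x y z
    have h5 : min 1 (dist x z / r) ≤ 1 := min_le_left _ _
    unfold D at h1 ⊢
    linarith

lemma D_tri (x y z : S) : D x z ≤ D x y + D y z := by
  have hr := r_pos
  rcases lt_or_ge (dist x y) r with h | h
  · exact D_tri_aux x y z h
  rcases lt_or_ge (dist y z) r with h' | h'
  · have := D_tri_aux z y x (by rw [dist_comm]; exact h')
    rw [D_comm z x, D_comm z y, D_comm y x] at this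
    linarith
  · have h1 : 1 ≤ D x y := le_trans (le_min le_rfl (by rw [one_le_div hr]; exact h)) (D_ge x y)
    have h2 : 1 ≤ D y z := le_trans (le_min le_rfl (by rw [one_le_div hr]; exact h')) (D_ge y z)
    have := D_le_two x z
    linarith

lemma D_eq_zero {x y : S} (h : D x y = 0) : x = y := by
  have hr := r_pos
  have h1 := D_ge x y
  rw [h] at h1
  by_contra hne
  have h2 : 0 < dist x y := dist_pos.2 hne
  have h3 : 0 < min 1 (dist x y / r) := lt_min one_pos (by positivity)
  linarith

lemma w_cont : Continuous (fun p : S × S => w p.1 p.2) := by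
  unfold w
  apply continuous_const.max
  apply continuous_const.sub
  apply Continuous.div_const
  exact (continuous_infDist_pt (A ∪ B))

lemma D_cont : Continuous (fun p : S × S => D p.1 p.2) := by
  unfold D
  exact (continuous_const.min ((continuous_fst.dist continuous_snd).div_const _)).add w_cont

/-- the circle with the new metric -/
def Y : Type := S

noncomputable instance : MetricSpace Y where
  dist x y := D x y
  dist_self x := D_self x
  dist_comm x y := D_comm x y
  dist_triangle x y z := D_tri x y z
  eq_of_dist_eq_zero := fun h => D_eq_zero h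

/-- the identity -/
def toY : S ≃ Y := Equiv.refl _

lemma dist_toY (x y : S) : dist (toY x) (toY y) = D x y := rfl

lemma toY_cont : Continuous toY := by
  rw [continuous_iff_continuousAt]
  intro x
  rw [ContinuousAt, tendsto_iff_dist_tendsto_zero]
  have h1 : Continuous (fun y : S => D y x) := D_cont.comp (continuous_id.prodMk continuous_const)
  have h2 := h1.tendsto x
  rw [D_self] at h2
  exact h2

instance : CompactSpace S := isCompact_iff_compactSpace.1 (isCompact_sphere (0 : ℂ) 1)

/-- the identity as a homeomorphism -/
noncomputable def hom : S ≃ₜ Y := toY_cont.homeoOfEquivCompactToT2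

lemma dist_hom (x y : S) : dist (hom x) (hom y) = D x y := rfl

end Pool.Agent.H104R3.Span
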